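import Pool.Agent.TH882.R9

/-!
# `n² + a` at consecutive primes in prescribed patterns, for almost all `a`

For every `m` there is `K` such that for all polynomials `g_1, …, g_r` with integer coefficients, positive degree and
positive leading coefficient (for instance `r = 1`, `g_1 = X ^ 2`; the number `r` is arbitrary and `K` does not depend
on it) and every set `U` of at least `4 (m + 1) K` positive integers: for almost all vectors `(a_1, …, a_r)` without
local obstruction there is a subset `H` of `U` with `m` elements such that for at least `x / (log x) ^ D` of the `n < x`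
all the `n + h`, `h ∈ H`, are prime, there are no other primes between `n + min H` and `n + max H`, and all the numbers
`g_j(n) + a_j` are prime.

The theorem is `Pool.Agent.TH882.RQ.finQ` of the starting library (helper882), which was not handed in (its analogue
for the linear forms `a_j - n` is `MP_967f73_nt.CommonSummands`; a variant with the primes only within `ε log x`, for a
positive proportion of the vectors, is in `MP_a17b09_nt`).
-/

set_option autoImplicit false

open Finset Filter Topology Polynomial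

namespace Pool.Agent.Results.MP_391708_nt.ConsecutivePatterns

/-- the numbers `n + h`, `h ∈ H`, are prime, and there are no other primes between `n + min H` and `n + max H` -/
def ConsecutivePrimes (H : Finset ℕ) (n : ℕ) : Prop :=
  (∀ h ∈ H, (n + h).Prime) ∧ ∀ w : ℕ, (∃ h ∈ H, h ≤ w) → (∃ h ∈ H, w ≤ h) → (n + w).Prime → w ∈ H

/-- no local obstruction: for every prime `l` there is an integer `x` such that `l` divides none of the `x + u`,
`u ∈ U`, and none of the `g_j(x) + a_j` -/
def NoObstruction {r : ℕ} (g : Fin r → ℤ[X]) (U : Finset ℕ) (a : Fin r → ℕ) : Prop :=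
  ∀ l : ℕ, l.Prime → ∃ x : ℤ, (∀ u ∈ U, ¬ (l : ℤ) ∣ x + u) ∧ ∀ j, ¬ (l : ℤ) ∣ (g j).eval x + a j

/-- the positive integers `n < x` such that the `n + h`, `h ∈ H`, are consecutive primes and all the `g_j(n) + a_j` are
prime -/
def solutions {r : ℕ} (g : Fin r → ℤ[X]) (H : Finset ℕ) (a : Fin r → ℕ) (x : ℕ) : Set ℕ :=
  {n : ℕ | 1 ≤ n ∧ n < x ∧ ConsecutivePrimes H n ∧ ∀ j, ∃ p : ℕ, p.Prime ∧ (g j).eval (n : ℤ) + a j = p}

theorem result (m : ℕ) : ∃ K : ℕ, 1 ≤ K ∧ ∀ {r : ℕ} (g : Fin r → ℤ[X]), (∀ j, 1 ≤ (g j).natDegree) →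
    (∀ j, 0 < (g j).leadingCoeff) → ∀ U : Finset ℕ, 4 * (m + 1) * K ≤ U.card → (∀ u ∈ U, 1 ≤ u) →
    ∃ D : ℕ, ∀ κ : ℕ, Tendsto (fun x : ℕ =>
      (({a : Fin r → ℕ | (∀ j, 1 ≤ a j ∧ a j ≤ κ * x ^ (g j).natDegree) ∧ NoObstruction g U a ∧
        ¬ ∃ H ⊆ U, H.card = m ∧ (x : ℝ) / Real.log x ^ D ≤ ((solutions g H a x).ncard : ℝ)}.ncard : ℝ)) /
        ∏ j, (x : ℝ) ^ (g j).natDegree) atTop (𝓝 0) := by
  classical
  obtain ⟨K, hK, h⟩ := Pool.Agent.TH882.RQ.finQ m
  refine ⟨K, hK, ?_⟩
  intro r g hd hl U hUc hU1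
  obtain ⟨V, hVU, hVc⟩ := Finset.exists_subset_card_eq hUc
  obtain ⟨D, hD⟩ := h g hd hl V hVc (fun u hu => hU1 u (hVU hu))
  refine ⟨D, fun κ => ?_⟩
  refine squeeze_zero (fun x => by positivity) (fun x => ?_) (hD κ)
  apply div_le_div_of_nonneg_right _ (by positivity)
  rw [Nat.cast_le, ← Set.ncard_coe_finset]
  refine Set.ncard_le_ncard ?_ (Finset.finite_toSet _)
  rintro a ⟨ha, hno, hH⟩
  rw [Finset.mem_coe, Pool.Agent.TH882.RQ.ExQ, Finset.mem_filter, Fintype.mem_piFinset]
  refine ⟨fun j => Finset.mem_Icc.2 (ha j), ?_, ?_⟩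
  · intro l hl'
    obtain ⟨y, hy1, hy2⟩ := hno l hl'
    refine ⟨y, fun u hu => hy1 u (hVU hu), fun j hj => hy2 j ?_⟩
    rw [one_mul, add_comm] at hj
    exact hj
  · rintro ⟨H, hHV, hHc, hle⟩
    apply hH
    refine ⟨H, hHV.trans hVU, hHc, hle.trans ?_⟩
    rw [Nat.cast_le, ← Set.ncard_coe_finset]
    refine Set.ncard_le_ncard ?_ ((Set.finite_Iio x).subset fun n hn => hn.2.1)
    intro n hn
    rw [Finset.mem_coe, Pool.Agent.TH882.RQ.CQ, Finset.mem_filter, Finset.mem_Ico] at hn
    refine ⟨hn.1.1, hn.1.2, hn.2.1, fun j => ?_⟩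
    have h1 := hn.2.2 j
    refine ⟨_, h1, ?_⟩
    have h2 : 0 ≤ (a j : ℤ) + 1 * (g j).eval (n : ℤ) := by
      by_contra hneg
      rw [Int.toNat_of_nonpos (by omega)] at h1
      exact Nat.not_prime_zero h1
    rw [Int.toNat_of_nonneg h2]
    ring

end Pool.Agent.Results.MP_391708_nt.ConsecutivePatterns
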